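import Pool.Agent.H86.KZ.S
import Pool.Agent.H29.EGH.HGA

/-!
# KZ: EXA, the exact sequence of a linear form
-/

set_option autoImplicit false

namespace Pool.KZ

open MvPolynomial Pool.EGH

namespace EXA

variable {K : Type} [Field K] {M : Type} [AddCommGroup M] [Module K M]

/-- Maps of degree `u` and substitutions of linear forms. -/
theorem eg_comp {k k' : ℕ} {G : Submodule K M} {u : ℤ} {g : EE K M k'} (hg : g ∈ Eg (k := k') G u)
    (f : Fin k → MvPolynomial (Fin k') K) (hf : ∀ i, (f i).IsHomogeneous 1) :
    g.comp (aeval f : MvPolynomial (Fin k) K →ₐ[K] MvPolynomial (Fin k') K).toLinearMap ∈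
      Eg (k := k) G u := by
  intro h
  refine ⟨(hg _).1, fun v hv => ?_⟩
  have h1 : (aeval f (homogeneousComponent v h)).IsHomogeneous v := by
    have := (homogeneousComponent_isHomogeneous v h).aeval f hf
    rwa [one_mul] at this
  have h2 := (hg (aeval f (homogeneousComponent v h))).2 v hv
  rw [homogeneousComponent_of_mem ((mem_homogeneousSubmodule _ _).2 h1), if_pos rfl] at h2
  exact h2

theorem eg_eq {k : ℕ} {G : Submodule K M} {u : ℕ} {g : EE K M k}
    (hg : g ∈ Eg (k := k) G (u : ℤ)) (h : MvPolynomial (Fin k) K) :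
    g h = g (homogeneousComponent u h) := by
  conv_lhs => rw [← sum_homogeneousComponent h]
  rw [map_sum]
  by_cases hu : u ∈ Finset.range (h.totalDegree + 1)
  · rw [Finset.sum_eq_single_of_mem u hu]
    intro v _ hv
    exact (hg h).2 v (by exact_mod_cast hv)
  · rw [Finset.sum_eq_zero, homogeneousComponent_eq_zero, map_zero]
    · simp only [Finset.mem_range, not_lt] at hu
      omega
    · intro v hv
      refine (hg h).2 v ?_
      rintro hvu
      have : v = u := by exact_mod_cast hvu
      exact hu (this ▸ hv)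

theorem eg_neg {k : ℕ} {G : Submodule K M} {u : ℤ} (hu : u < 0) {g : EE K M k}
    (hg : g ∈ Eg (k := k) G u) : g = 0 := by
  refine LinearMap.ext fun h => ?_
  rw [← sum_homogeneousComponent h, map_sum, LinearMap.zero_apply]
  exact Finset.sum_eq_zero fun v _ => (hg h).2 v (by omega)

theorem xe_apply {k : ℕ} (y : ℕ → Fin k → M →ₗ[K] M) (j : ℕ) (g : EE K M k)
    (h : MvPolynomial (Fin k) K) : xe y j g h = ∑ i, y j i (g (X i * h)) := by
  change (∑ i, (y j i).comp (ct (X i) g)) h = _
  rw [LinearMap.sum_apply]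
  rfl

theorem ct_apply {k : ℕ} (w : MvPolynomial (Fin k) K) (g : EE K M k)
    (h : MvPolynomial (Fin k) K) : ct w g h = g (w * h) := rfl

/-- Surjectivity of the contraction. -/
theorem ct_su {k : ℕ} {G : Submodule K M} {w : MvPolynomial (Fin k) K} (hw : w.IsHomogeneous 1)
    (hw0 : w ≠ 0) (u : ℤ) {g : EE K M k} (hg : g ∈ Eg (k := k) G (u - 1)) :
    ∃ n ∈ Eg (k := k) G u, ct w n = g := by
  rcases lt_or_ge (u - 1) 0 with hu | hu
  · exact ⟨0, zero_mem _, by rw [map_zero, eg_neg hu hg]⟩
  obtain ⟨t, ht⟩ := Int.eq_ofNat_of_zero_le hu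
  have hut : u = ((t + 1 : ℕ) : ℤ) := by push_cast; omega
  rw [ht] at hg
  have hinj : Function.Injective (LinearMap.mulLeft K w) := by
    intro x y hxy
    exact mul_left_cancel₀ hw0 hxy
  obtain ⟨lam, hlam⟩ := LinearMap.exists_leftInverse_of_injective (LinearMap.mulLeft K w)
    (LinearMap.ker_eq_bot.2 hinj)
  have hlam' : ∀ x, lam (w * x) = x := fun x => LinearMap.congr_fun hlam x
  refine ⟨(g.comp lam).comp (homogeneousComponent (t + 1)), ?_, ?_⟩
  · intro h
    refine ⟨(hg _).1, fun v hv => ?_⟩
    have h1 : homogeneousComponent (t + 1) (homogeneousComponent v h) = 0 := by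
      rw [homogeneousComponent_of_mem (homogeneousComponent_mem v h), if_neg]
      rintro rfl
      exact hv hut.symm
    change g (lam (homogeneousComponent (t + 1) (homogeneousComponent v h))) = 0
    rw [h1, map_zero, map_zero]
  · refine LinearMap.ext fun h => ?_
    have h1 : homogeneousComponent (t + 1) (w * h) = w * homogeneousComponent t h := by
      rw [add_comm]
      exact HGA.hc_mul ((mem_homogeneousSubmodule _ _).2 hw) h t
    change g (lam (homogeneousComponent (t + 1) (w * h))) = g h
    rw [h1, hlam', ← eg_eq hg h]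

end EXA

open EXA

/-- EXA. -/
theorem t_exa (hXEB : XEBStmt) : EXAStmt := by
  intro K M _ _ _ G k y hy hyc b hb
  classical
  obtain ⟨i₀, hi₀⟩ := Function.ne_iff.1 hb
  rw [Pi.zero_apply] at hi₀
  obtain ⟨x1, x2, x3, x4⟩ := hXEB K M G (k + 1) y hy hyc
  set w : MvPolynomial (Fin (k + 1)) K := ∑ i, b i • X i with hwdef
  have hw : w.IsHomogeneous 1 := by
    rw [hwdef]
    exact Submodule.sum_mem (homogeneousSubmodule (Fin (k + 1)) K 1) fun i _ =>
      Submodule.smul_mem _ _ (isHomogeneous_X K i)
  have hw0 : w ≠ 0 := by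
    intro h
    have h1 := congrArg (coeff (Finsupp.single i₀ 1)) h
    rw [hwdef, coeff_sum, coeff_zero, Finset.sum_eq_single i₀] at h1
    · rw [coeff_smul, coeff_X, if_pos rfl, smul_eq_mul, mul_one] at h1
      exact hi₀ h1
    · intro j _ hj
      rw [coeff_smul, coeff_X, if_neg, smul_zero]
      intro h
      exact hj ((Finsupp.single_left_injective one_ne_zero) h)
    · intro h
      exact absurd (Finset.mem_univ _) h
  -- the matrix
  let B : Fin k → Fin (k + 1) → K := fun i' => Fin.insertNth i₀
    (-(b i₀)⁻¹ * b (i₀.succAbove i')) (fun i'' => if i' = i'' then 1 else 0)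
  have hB0 : ∀ i', B i' i₀ = -(b i₀)⁻¹ * b (i₀.succAbove i') := fun i' => by
    simp [B]
  have hB1 : ∀ i' i'', B i' (i₀.succAbove i'') = if i' = i'' then 1 else 0 := fun i' i'' => by
    simp [B]
  let p : Fin (k + 1) → MvPolynomial (Fin k) K := fun i => ∑ i', B i' i • X i'
  let s : Fin k → MvPolynomial (Fin (k + 1)) K := fun i' => X (i₀.succAbove i')
  have hp : ∀ i, (p i).IsHomogeneous 1 := fun i =>
    Submodule.sum_mem (homogeneousSubmodule (Fin k) K 1) fun i' _ =>
      Submodule.smul_mem _ _ (isHomogeneous_X K i')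
  have hs : ∀ i, (s i).IsHomogeneous 1 := fun i => isHomogeneous_X K _
  let π : MvPolynomial (Fin (k + 1)) K →ₐ[K] MvPolynomial (Fin k) K := aeval p
  let σ : MvPolynomial (Fin k) K →ₐ[K] MvPolynomial (Fin (k + 1)) K := aeval s
  have hps : ∀ i', p (i₀.succAbove i') = X i' := by
    intro i'
    change ∑ i'', B i'' (i₀.succAbove i') • X i'' = _
    rw [Finset.sum_eq_single i']
    · rw [hB1, if_pos rfl, one_smul]
    · intro j _ hj
      rw [hB1, if_neg hj, zero_smul]
    · intro h
      exact absurd (Finset.mem_univ _) h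
  have hπσ : ∀ h, π (σ h) = h := by
    have h1 : π.comp σ = AlgHom.id K _ := by
      refine algHom_ext fun i' => ?_
      change π (σ (X i')) = X i'
      change aeval p (aeval s (X i')) = X i'
      rw [aeval_X, aeval_X, hps]
    intro h
    exact congrArg (fun φ : MvPolynomial (Fin k) K →ₐ[K] MvPolynomial (Fin k) K => φ h) h1
  have hπw : π w = 0 := by
    rw [hwdef, map_sum, Fin.sum_univ_succAbove _ i₀]
    simp only [map_smul]
    have h1 : ∀ i', π (X (i₀.succAbove i')) = X i' := fun i' => by
      change aeval p (X _) = _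
      rw [aeval_X, hps]
    have h2 : π (X i₀) = ∑ i', (-(b i₀)⁻¹ * b (i₀.succAbove i')) • X i' := by
      change aeval p (X _) = _
      rw [aeval_X]
      exact Finset.sum_congr rfl fun i' _ => by rw [hB0]
    simp only [h1, h2]
    rw [Finset.smul_sum, ← Finset.sum_add_distrib]
    refine Finset.sum_eq_zero fun i' _ => ?_
    rw [smul_smul, ← add_smul]
    have : b i₀ * (-(b i₀)⁻¹ * b (i₀.succAbove i')) + b (i₀.succAbove i') = 0 := by
      field_simp
      ring
    rw [this, zero_smul]
  have hker : ∀ h, ∃ z, h - σ (π h) = w * z := by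
    have h1 : ∀ h, h - σ (π h) ∈ Ideal.span {w} := by
      have h2 : (Ideal.Quotient.mkₐ K (Ideal.span {w})).comp (σ.comp π) =
          Ideal.Quotient.mkₐ K (Ideal.span {w}) := by
        refine algHom_ext fun i => ?_
        change Ideal.Quotient.mk _ (σ (π (X i))) = Ideal.Quotient.mk _ (X i)
        rw [Ideal.Quotient.eq]
        change aeval s (aeval p (X i)) - X i ∈ _
        rw [aeval_X]
        rcases Fin.eq_self_or_eq_succAbove i₀ i with rfl | ⟨i', rfl⟩
        · have h3 : aeval s (p i) = ∑ i', (-(b i)⁻¹ * b (i.succAbove i')) • X (i.succAbove i') := by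
            change aeval s (∑ i', B i' i • X i') = _
            rw [map_sum]
            refine Finset.sum_congr rfl fun i' _ => ?_
            rw [map_smul, aeval_X, hB0]
          have h4 : aeval s (p i) - X i = (-(b i)⁻¹) • w := by
            rw [h3, hwdef, Fin.sum_univ_succAbove _ i, smul_add, smul_smul, Finset.smul_sum]
            have : -(b i)⁻¹ * b i = -1 := by field_simp
            rw [this, neg_smul, one_smul, sub_eq_neg_add]
            congr 1
            refine Finset.sum_congr rfl fun i' _ => ?_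
            rw [smul_smul]
          rw [h4]
          exact Submodule.smul_of_tower_mem _ _ (Ideal.mem_span_singleton_self w)
        · rw [hps, aeval_X, sub_self]
          exact zero_mem _
      intro h
      have h3 := congrArg (fun φ : MvPolynomial (Fin (k + 1)) K →ₐ[K]
        (MvPolynomial (Fin (k + 1)) K ⧸ Ideal.span {w}) => φ h) h2
      have h4 : Ideal.Quotient.mk (Ideal.span {w}) (σ (π h)) = Ideal.Quotient.mk _ h := h3
      exact Ideal.Quotient.eq.1 h4.symm
    intro h
    obtain ⟨z, hz⟩ := Ideal.mem_span_singleton'.1 (h1 h)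
    exact ⟨z, by rw [← hz, mul_comm]⟩
  let ι : EE K M k →ₗ[K] EE K M (k + 1) :=
    { toFun := fun g => g.comp π.toLinearMap
      map_add' := fun _ _ => rfl
      map_smul' := fun _ _ => rfl }
  have hι : ∀ g h, ι g h = g (π h) := fun _ _ => rfl
  refine ⟨B, ι, ?_, fun ν => ⟨x1, x2 ν, ?_, ?_, ?_, fun j m => x3 w j m, ?_,
    fun t m hm => x4 w ((mem_homogeneousSubmodule _ _).2 hw) ν t m hm, ?_, ?_⟩⟩
  · intro α hα
    funext i'
    have h1 := hα (i₀.succAbove i')
    rw [Finset.sum_eq_single i'] at h1
    · rw [hB1, if_pos rfl, mul_one] at h1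
      exact h1
    · intro j _ hj
      rw [hB1, if_neg hj, mul_zero]
    · intro h
      exact absurd (Finset.mem_univ _) h
  · intro g g' hgg
    refine LinearMap.ext fun h => ?_
    have h1 := LinearMap.congr_fun hgg (σ h)
    rwa [hι, hι, hπσ] at h1
  · intro g
    refine LinearMap.ext fun h => ?_
    rw [ct_apply, hι, map_mul, hπw, zero_mul, map_zero, LinearMap.zero_apply]
  · intro j g
    refine LinearMap.ext fun h => ?_
    rw [hι, xe_apply, xe_apply]
    have h1 : ∀ i, ι g (X i * h) = ∑ i', B i' i • g (X i' * π h) := by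
      intro i
      rw [hι, map_mul]
      have : π (X i) = ∑ i', B i' i • X i' := by
        change aeval p (X _) = _
        rw [aeval_X]
      rw [this, Finset.sum_mul, map_sum]
      refine Finset.sum_congr rfl fun i' _ => ?_
      rw [smul_mul_assoc, map_smul]
    simp only [h1, map_sum, map_smul, LinearMap.sum_apply, LinearMap.smul_apply]
    exact Finset.sum_comm
  · intro t g hg
    exact eg_comp hg p hp
  · intro t g hg hg0
    refine ⟨g.comp σ.toLinearMap, eg_comp hg s hs, ?_⟩
    refine LinearMap.ext fun h => ?_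
    rw [hι]
    change g (σ (π h)) = g h
    obtain ⟨z, hz⟩ := hker h
    have h1 : g (h - σ (π h)) = 0 := by
      rw [hz]
      exact LinearMap.congr_fun hg0 z
    rw [map_sub, sub_eq_zero] at h1
    exact h1.symm
  · intro t g hg
    unfold Ez at hg ⊢
    refine ct_su hw hw0 (ν - t) ?_
    have e : ν - 1 - t = ν - t - 1 := by ring
    rwa [e] at hg

end Pool.KZ
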