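import Pool.Agent.H86.KZ.S
import Pool.Agent.H85.EG3.PEM
import Pool.Agent.H29.EGH.HGA

/-!
# KZ: HVI and HVA, linear forms modulo a regular sequence
-/

set_option autoImplicit false

namespace Pool.KZ

open MvPolynomial Pool.EGH
open Pool.EG3 (MC)
open Pool.EG4 (dl so)

namespace HVI

variable {K : Type} [Field K] {N : ℕ}

theorem mu_apply (Q : Ideal (PR K N)) (f : PR K N) (z : PR K N ⧸ Q) :
    mu Q f z = Ideal.Quotient.mk Q f * z := rfl

theorem cm_mu (Q : Ideal (PR K N)) (l : ℕ → PR K N) : Cm (fun j => mu Q (l j)) := by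
  intro i j m
  simp only [mu_apply]
  exact mul_left_comm _ _ _

theorem dg_mu (hGZM : GZMStmt) (Q : Ideal (PR K N)) (l : ℕ → PR K N)
    (hl : ∀ j, l j ∈ fm K N 1) : Dg (fun j => mu Q (l j)) (gz Q) := by
  intro i s m hm
  have := hGZM K N Q 1 (l i) (hl i) s m hm
  simpa using this

theorem gz_nat (Q : Ideal (PR K N)) (s : ℕ) : gz Q (s : ℤ) = gp Q s := by
  simp [gz]

theorem gz_neg (Q : Ideal (PR K N)) {s : ℤ} (hs : s < 0) : gz Q s = ⊥ := by
  simp [gz, not_le.2 hs]

/-- Cochains of negative degree. -/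
theorem vn_neg (Q : Ideal (PR K N)) (x : ℕ → (PR K N ⧸ Q) →ₗ[K] (PR K N ⧸ Q)) (J : Finset ℕ)
    (p : ℤ) {s : ℤ} (hs : s < 0) : Vn x (gz Q) J p s := by
  intro c hc _
  refine ⟨0, zero_mem _, fun T _ => ?_⟩
  have h1 := (hc T).1
  rw [gz_neg Q hs, Submodule.mem_bot] at h1
  rw [map_zero, Pi.zero_apply, h1]

/-- The factor map. -/
noncomputable def fa {Q' Q : Ideal (PR K N)} (h : Q' ≤ Q) : (PR K N ⧸ Q') →ₗ[K] (PR K N ⧸ Q) :=
  (Ideal.Quotient.factorₐ K h).toLinearMap

theorem fa_mk {Q' Q : Ideal (PR K N)} (h : Q' ≤ Q) (z : PR K N) :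
    fa h (Ideal.Quotient.mk Q' z) = Ideal.Quotient.mk Q z := rfl

theorem fa_mul {Q' Q : Ideal (PR K N)} (h : Q' ≤ Q) (y z : PR K N ⧸ Q') :
    fa h (y * z) = fa h y * fa h z := map_mul (Ideal.Quotient.factorₐ K h) y z

theorem mem_gp {Q : Ideal (PR K N)} {t : ℕ} {m : PR K N ⧸ Q} :
    m ∈ gp Q t ↔ ∃ P ∈ fm K N t, Ideal.Quotient.mk Q P = m := Iff.rfl

/-- The kernel of the factor map. -/
theorem fa_ex {Q' : Ideal (PR K N)} (hQ' : Hg Q') {a : ℕ} {f : PR K N} (hf : f ∈ fm K N a)
    (t : ℤ) (m : PR K N ⧸ Q') (hm : m ∈ gz Q' t)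
    (h0 : fa (le_sup_left : Q' ≤ Q' ⊔ Ideal.span {f}) m = 0) :
    ∃ n ∈ gz Q' (t - a), mu Q' f n = m := by
  rcases lt_or_ge t 0 with ht | ht
  · rw [gz_neg Q' ht, Submodule.mem_bot] at hm
    exact ⟨0, zero_mem _, by rw [map_zero, hm]⟩
  obtain ⟨t, rfl⟩ := Int.eq_ofNat_of_zero_le ht
  rw [gz_nat, mem_gp] at hm
  obtain ⟨P, hP, rfl⟩ := hm
  rw [fa_mk, Ideal.Quotient.eq_zero_iff_mem] at h0
  obtain ⟨y, hy, z, hz, hyz⟩ := Submodule.mem_sup.1 h0
  obtain ⟨w, rfl⟩ := Ideal.mem_span_singleton'.1 hz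
  have hPt : homogeneousComponent t P = P := by
    rw [homogeneousComponent_of_mem hP, if_pos rfl]
  have h1 : P = homogeneousComponent t y + homogeneousComponent t (w * f) := by
    rw [← map_add, hyz, hPt]
  rcases lt_or_ge t a with hta | hta
  · refine ⟨0, zero_mem _, ?_⟩
    rw [map_zero, h1, mul_comm w f, HGA.hc_mul_lt hf w hta, add_zero]
    exact (Ideal.Quotient.eq_zero_iff_mem.2 (hQ' y hy t)).symm
  · refine ⟨Ideal.Quotient.mk Q' (homogeneousComponent (t - a) w), ?_, ?_⟩
    · rw [← Nat.cast_sub hta, gz_nat, mem_gp]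
      exact ⟨_, homogeneousComponent_mem _ _, rfl⟩
    · have h2 : homogeneousComponent t (f * w) = f * homogeneousComponent (t - a) w := by
        have := HGA.hc_mul hf w (t - a)
        rwa [Nat.add_sub_cancel' hta] at this
      rw [mu_apply, ← map_mul, h1, mul_comm w f, h2, map_add,
        Ideal.Quotient.eq_zero_iff_mem.2 (hQ' y hy t), zero_add]

theorem fa_mem {Q' Q : Ideal (PR K N)} (h : Q' ≤ Q) (t : ℤ) (m : PR K N ⧸ Q')
    (hm : m ∈ gz Q' t) : fa h m ∈ gz Q t := by
  rcases lt_or_ge t 0 with ht | ht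
  · rw [gz_neg Q' ht, Submodule.mem_bot] at hm
    rw [hm, map_zero]
    exact zero_mem _
  obtain ⟨t, rfl⟩ := Int.eq_ofNat_of_zero_le ht
  rw [gz_nat, mem_gp] at hm ⊢
  obtain ⟨P, hP, rfl⟩ := hm
  exact ⟨P, hP, (fa_mk h P).symm⟩

theorem fa_su {Q' Q : Ideal (PR K N)} (h : Q' ≤ Q) (t : ℤ) (m : PR K N ⧸ Q)
    (hm : m ∈ gz Q t) : ∃ n ∈ gz Q' t, fa h n = m := by
  rcases lt_or_ge t 0 with ht | ht
  · rw [gz_neg Q ht, Submodule.mem_bot] at hm
    exact ⟨0, zero_mem _, by rw [map_zero, hm]⟩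
  obtain ⟨t, rfl⟩ := Int.eq_ofNat_of_zero_le ht
  rw [gz_nat, mem_gp] at hm
  obtain ⟨P, hP, rfl⟩ := hm
  refine ⟨Ideal.Quotient.mk Q' P, ?_, fa_mk h P⟩
  rw [gz_nat, mem_gp]
  exact ⟨P, hP, rfl⟩

theorem so_succ (a : ℕ → ℕ) (q : ℕ) : so a (q + 1) = so a q + (a q - 1) :=
  Finset.sum_range_succ _ _

theorem cd_succ {a : ℕ → ℕ} {r q : ℕ} {s : ℤ} (h : cd a r q s) : cd a r (q + 1) s := by
  rcases h with h | h
  · exact Or.inl (by omega)
  · refine Or.inr ?_
    rw [so_succ]
    push_cast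
    omega

end HVI

open HVI

/-- HVI. -/
theorem t_hvi (hQUO : QUOStmt) (hREG : REGStmt) (hGZM : GZMStmt) : HVIStmt := by
  intro K _ N a ha ha0 r
  induction r with
  | zero =>
    intro Q hQ l J hl hJ q s hc
    rcases Nat.eq_zero_or_pos q with rfl | hq
    · rcases hc with hc | hc
      · exact absurd hc (by omega)
      · have : s < 0 := by simpa [so] using hc
        exact vn_neg Q _ J _ this
    · have hQ0 : Q = ⊥ := by
        generalize hL : dl a 0 = L at hQ
        generalize hk : (0 : ℕ) = k at hQ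
        cases hQ with
        | zero => rfl
        | lin => exact absurd hk (by omega)
        | form => exact absurd hL (by simp [dl])
      subst hQ0
      exact hREG K N l J hl hJ _ s (by omega)
  | succ r ih =>
    intro Q hQ l J hl hJ q s hc
    rcases Nat.eq_zero_or_pos q with rfl | hq
    · rcases hc with hc | hc
      · exact absurd hc (by omega)
      · have : s < 0 := by simpa [so] using hc
        exact vn_neg Q _ J _ this
    · have hQ0 : ∃ (Q' : Ideal (PR K N)) (f : PR K N), MC 0 (dl a r) Q' ∧ 1 ≤ a r ∧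
          f ∈ fm K N (a r) ∧ Rg Q' f ∧ Q = Q' ⊔ Ideal.span {f} := by
        generalize hL : dl a (r + 1) = L at hQ
        generalize hk : (0 : ℕ) = k at hQ
        cases hQ with
        | zero => exact absurd hL (by simp [dl])
        | lin => exact absurd hk (by omega)
        | form h1 h2 h3 h4 =>
          subst hk
          obtain ⟨rfl, rfl⟩ := List.cons.inj hL
          exact ⟨_, _, h1, h2, h3, h4, rfl⟩
      obtain ⟨Q', f, h1, h2, h3, h4, rfl⟩ := hQ0
      have hg : Hg Q' := Pool.EG3.t_hgm K N _ _ _ h1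
      have haq : ∀ i, 1 ≤ a i := fun i => ha0.trans (ha (Nat.zero_le i))
      refine hQUO K (PR K N ⧸ Q') _ (fun j => mu Q' (l j)) (fun j => mu _ (l j)) (gz Q')
        (gz _) (mu Q' f) (fa le_sup_left) (a r) J _ s (cm_mu Q' l) (dg_mu hGZM Q' l hl) ?_ ?_
        (fun t m hm => hGZM K N Q' (a r) f h3 t m hm) ?_ ?_
        (fun t m hm h0 => fa_ex hg h3 t m hm h0) (fa_mem le_sup_left) (fa_su le_sup_left) ?_ ?_
      · intro j m
        simp only [mu_apply]
        exact mul_left_comm _ _ _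
      · rw [injective_iff_map_eq_zero]
        intro z hz
        obtain ⟨z, rfl⟩ := Ideal.Quotient.mk_surjective z
        rw [mu_apply, ← map_mul, Ideal.Quotient.eq_zero_iff_mem] at hz
        exact Ideal.Quotient.eq_zero_iff_mem.2 (h4 z hz)
      · intro j m
        simp only [mu_apply, fa_mul, fa_mk]
      · intro m
        rw [mu_apply, fa_mul, fa_mk, Ideal.Quotient.eq_zero_iff_mem.2
          (Ideal.mem_sup_right (Ideal.mem_span_singleton_self f)), zero_mul]
      · refine ih Q' h1 l J hl hJ q s ?_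
        rcases hc with hc | hc
        · exact Or.inl (by omega)
        · exact Or.inr hc
      · have := ih Q' h1 l J hl hJ (q - 1) (s + 1 - a r) ?_
        · have e : (J.card : ℤ) - (q : ℕ) + 1 = J.card - ((q - 1 : ℕ) : ℤ) := by omega
          rw [e]
          exact this
        · rcases hc with hc | hc
          · exact Or.inl (by omega)
          · rcases lt_or_ge (r + 1) q with h | h
            · exact Or.inl (by omega)
            · refine Or.inr ?_
              obtain ⟨q, rfl⟩ : ∃ q', q = q' + 1 := ⟨q - 1, by omega⟩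
              rw [so_succ] at hc
              have h5 : a q ≤ a r := ha (by omega)
              have h6 := haq q
              have e : q + 1 - 1 = q := rfl
              rw [e]
              push_cast [Nat.cast_sub h6] at hc
              omega

/-- HVA. -/
theorem t_hva (hHVI : HVIStmt) (hINS : INSStmt) (hGZM : GZMStmt) : HVAStmt := by
  intro K _ N a ha ha0 r Q hQ l J hl c hc
  have h0 : LinearIndepOn K l (∅ : Set ℕ) := linearIndepOn_empty K l
  obtain ⟨b, hbJ, -, hb1, hb2⟩ := exists_linearIndepOn_extension h0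
    (Set.empty_subset (J : Set ℕ))
  have hbf : b.Finite := J.finite_toSet.subset hbJ
  have hcb : c ≤ hbf.toFinset.card := by
    refine hc.trans ?_
    have h1 : Submodule.span K (l '' (J : Set ℕ)) ≤ Submodule.span K (l '' b) :=
      Submodule.span_le.2 hb1
    have h2 : Module.Finite K (Submodule.span K (l '' b)) :=
      FiniteDimensional.span_of_finite K (hbf.image l)
    refine (Submodule.finrank_mono h1).trans ?_
    have h3 : Fintype b := hbf.fintype
    have h4 : (Set.range fun x : b => l x) = l '' b := by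
      ext y
      simp
    rw [← h4]
    refine (finrank_range_le_card (R := K) fun x : b => l x).trans ?_
    rw [Set.Finite.card_toFinset]
  obtain ⟨J0, hJ0, hJ0c⟩ := Finset.exists_subset_card_eq hcb
  have hJ0i : LinearIndepOn K l (J0 : Set ℕ) := hb2.mono (fun x hx => by
    have := hJ0 hx
    simpa using this)
  have hJ0J : J0 ⊆ J := fun x hx => by
    have := hJ0 hx
    rw [Set.Finite.mem_toFinset] at this
    exact hbJ this
  have key : ∀ D : Finset ℕ, Disjoint J0 D → ∀ (q : ℕ) (s : ℤ), cd a r q s →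
      Vn (fun j => mu Q (l j)) (gz Q) (J0 ∪ D) (c - q) s := by
    intro D
    induction D using Finset.induction_on with
    | empty =>
      intro _ q s h
      rw [Finset.union_empty, ← hJ0c]
      exact hHVI K N a ha ha0 r Q hQ l J0 hl hJ0i q s h
    | insert j D hj ih =>
      intro hd q s h
      rw [Finset.disjoint_insert_right] at hd
      rw [Finset.union_insert]
      have h1 := ih hd.2 q s h
      have h2 := ih hd.2 (q + 1) s (cd_succ h)
      refine hINS K _ _ (gz Q) (J0 ∪ D) j _ s (cm_mu Q l) (dg_mu hGZM Q l hl) ?_ h1 ?_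
      · rw [Finset.mem_union, not_or]
        exact ⟨hd.1, hj⟩
      · have e : (c : ℤ) - (q : ℕ) - 1 = c - ((q + 1 : ℕ) : ℤ) := by push_cast; ring
        rw [e]
        exact h2
  intro q s h
  have := key (J \ J0) Finset.disjoint_sdiff q s h
  rwa [Finset.union_sdiff_of_subset hJ0J] at this

end Pool.KZ
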