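import Pool.Agent.H20.KZ.HVI
import Pool.Agent.H45.EGH.GPM

/-!
# KZ: HYP, a hyperplane and few linear forms
-/

set_option autoImplicit false

namespace Pool.KZ

open MvPolynomial Pool.EGH
open Pool.EG3 (MC)
open Pool.EG4 (dl so)

namespace HYP

variable {K : Type} [Field K] {N : ℕ}

/-- The linear forms act on the quotient. -/
noncomputable def th (Q : Ideal (PR K N)) :
    ↥(fm K N 1) →ₗ[K] (PR K N ⧸ Q) →ₗ[K] (PR K N ⧸ Q) := (mu Q).comp (fm K N 1).subtype

theorem th_apply (Q : Ideal (PR K N)) (l : ↥(fm K N 1)) (z : PR K N ⧸ Q) :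
    th Q l z = Ideal.Quotient.mk Q (l : PR K N) * z := rfl

section Dual

variable {M : Type} [AddCommGroup M] [Module K M] {k : ℕ}

/-- The linear map of degree one given by a family of elements. -/
noncomputable def io (v : Fin k → M) : EE K M k where
  toFun h := ∑ i, coeff (Finsupp.single i 1) h • v i
  map_add' h h' := by
    simp only [coeff_add, add_smul, Finset.sum_add_distrib]
  map_smul' r h := by
    simp only [coeff_smul, smul_eq_mul, mul_smul, Finset.smul_sum, RingHom.id_apply]

theorem io_apply (v : Fin k → M) (h : MvPolynomial (Fin k) K) :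
    io v h = ∑ i, coeff (Finsupp.single i 1) h • v i := rfl

theorem io_mem {G : Submodule K M} {v : Fin k → M} (hv : ∀ i, v i ∈ G) :
    io (K := K) v ∈ Eg (k := k) G 1 := by
  intro h
  refine ⟨?_, fun n hn => ?_⟩
  · rw [io_apply]
    exact Submodule.sum_mem _ fun i _ => Submodule.smul_mem _ _ (hv i)
  · rw [io_apply]
    refine Finset.sum_eq_zero fun i _ => ?_
    rw [coeff_homogeneousComponent, if_neg, zero_smul]
    intro h1
    apply hn
    rw [← h1]
    simp [Finsupp.degree_single]

theorem io_X (v : Fin k → M) (i : Fin k) : io (K := K) v (X i) = v i := by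
  classical
  rw [io_apply, Finset.sum_eq_single i]
  · rw [coeff_X, if_pos rfl, one_smul]
  · intro j _ hj
    rw [coeff_X, if_neg, zero_smul]
    intro h
    exact hj ((Finsupp.single_left_injective one_ne_zero) h).symm
  · intro h
    exact absurd (Finset.mem_univ i) h

theorem io_X_mul (v : Fin k → M) (i : Fin k) (h : MvPolynomial (Fin k) K) :
    io v (X i * h) = coeff 0 h • v i := by
  classical
  rw [io_apply, Finset.sum_eq_single i]
  · rw [coeff_X_mul', if_pos (by simp)]
    congr 2
    simp
  · intro j _ hj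
    rw [coeff_X_mul', if_neg, zero_smul]
    rw [Finsupp.mem_support_single]
    exact fun h => hj h.1.symm
  · intro h
    exact absurd (Finset.mem_univ i) h

theorem xe_io (y : ℕ → Fin k → M →ₗ[K] M) (v : Fin k → M) (j : ℕ)
    (h : ∑ i, y j i (v i) = 0) : xe y j (io v) = 0 := by
  refine LinearMap.ext fun g => ?_
  have h1 : xe y j (io v) g = ∑ i, y j i (io v (X i * g)) := by
    change (∑ i, (y j i).comp (ct (X i) (io v))) g = _
    rw [LinearMap.sum_apply]
    rfl
  rw [h1, LinearMap.zero_apply]
  calc ∑ i, y j i (io v (X i * g)) = ∑ i, coeff 0 g • y j i (v i) :=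
        Finset.sum_congr rfl fun i _ => by rw [io_X_mul, map_smul]
    _ = 0 := by rw [← Finset.smul_sum, h, smul_zero]

/-- If the cohomology at the place zero vanishes, the elements of the family are zero. -/
theorem io_zero {G : ℤ → Submodule K M} {y : ℕ → Fin k → M →ₗ[K] M} {J : Finset ℕ} {s : ℤ}
    (hV : Vn (xe y) (Ez G (s + 1)) J 0 s) {v : Fin k → M} (hv : ∀ i, v i ∈ G s)
    (h : ∀ j ∈ J, ∑ i, y j i (v i) = 0) : v = 0 := by
  classical
  have h1 : (fun T : Finset ℕ => if T = ∅ then io (K := K) v else 0) ∈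
      Cc J 0 (Ez (k := k) G (s + 1) s) := by
    intro T
    constructor
    · change (if T = ∅ then io (K := K) v else 0) ∈ _
      split_ifs
      · have := io_mem (K := K) hv
        unfold Ez
        rw [add_sub_cancel_left]
        exact this
      · exact zero_mem _
    · intro h2
      change (if T = ∅ then io (K := K) v else 0) = 0
      rw [if_neg]
      rintro rfl
      exact h2 ⟨Finset.empty_subset _, by simp⟩
  obtain ⟨b, _, hb⟩ := hV _ h1 (by
    intro T hT
    change ∑ j ∈ T, sg j T • xe y j (if T.erase j = ∅ then io (K := K) v else 0) = 0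
    refine Finset.sum_eq_zero fun j hj => ?_
    split_ifs
    · rw [xe_io y v j (h j (hT hj)), smul_zero]
    · rw [map_zero, smul_zero])
  have h2 := hb ∅ (Finset.empty_subset _)
  have h3 : kd (xe y) b ∅ = 0 := by
    change ∑ j ∈ (∅ : Finset ℕ), sg j ∅ • xe y j (b (Finset.erase ∅ j)) = 0
    rw [Finset.sum_empty]
  rw [h3, if_pos rfl] at h2
  funext i
  rw [← io_X (K := K) v i, ← h2]
  rfl

end Dual

theorem repr_val {V : Type} [AddCommGroup V] [Module K V] {S : Submodule K V} {ι : Type}
    [Fintype ι] (b : Module.Basis ι K S) (x : S) : (x : V) = ∑ i, b.repr x i • (b i : V) := by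
  have h := congrArg S.subtype (b.sum_repr x)
  rw [map_sum] at h
  simp only [map_smul, Submodule.subtype_apply] at h
  exact h.symm

/-- A finite family spanning a finite dimensional space. -/
theorem exists_family {V : Type} [AddCommGroup V] [Module K V] (S : Submodule K V)
    [Module.Finite K S] : ∃ (l : ℕ → V) (J : Finset ℕ), (∀ j, l j ∈ S) ∧
      S ≤ Submodule.span K (l '' (J : Set ℕ)) := by
  let b := Module.finBasis K S
  refine ⟨fun j => if h : j < Module.finrank K S then (b ⟨j, h⟩ : V) else 0,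
    Finset.range (Module.finrank K S), fun j => ?_, ?_⟩
  · dsimp only
    split_ifs
    · exact (b _).2
    · exact zero_mem _
  · intro x hx
    have h2 : x = ∑ i, b.repr ⟨x, hx⟩ i • (b i : V) := repr_val b ⟨x, hx⟩
    rw [h2]
    refine Submodule.sum_mem _ fun i _ => Submodule.smul_mem _ _ (Submodule.subset_span ?_)
    refine ⟨i, by simp, ?_⟩
    simp

theorem fin_gz (Q : Ideal (PR K N)) (s : ℤ) : Module.Finite K ↥(gz Q s) := by
  rcases lt_or_ge s 0 with h | h
  · rw [HVI.gz_neg Q h]
    infer_instance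
  · obtain ⟨s, rfl⟩ := Int.eq_ofNat_of_zero_le h
    rw [HVI.gz_nat]
    exact (t_gpm K N Q).1 s

end HYP

open HYP HVI

/-- HYP. -/
theorem t_hyp (hVAN : VANStmt) (hHVA : HVAStmt) (hGZM : GZMStmt) : HYPStmt := by
  intro K _ _ N a ha ha0 r Q hQ m k q V hV hVk hq
  classical
  have hVf : Module.Finite K V := Module.finite_of_finrank_pos (by omega)
  let B : Module.Basis (Fin (k + 1)) K V := Module.finBasisOfFinrankEq K V hVk
  let v : Fin (k + 1) → PR K N ⧸ Q := fun i => (B i : PR K N ⧸ Q)
  have hfm : Module.Finite K ↥(fm K N 1) := t_FIN K N 1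
  -- the linear syzygies
  let Φ : (Fin (k + 1) → ↥(fm K N 1)) →ₗ[K] (PR K N ⧸ Q) :=
    ∑ i, ((th Q).flip (v i)).comp (LinearMap.proj i)
  have hΦ : ∀ x, Φ x = ∑ i, th Q (x i) (v i) := by
    intro x
    simp [Φ, LinearMap.sum_apply]
  obtain ⟨l, J, hl, hJ⟩ := exists_family (LinearMap.ker Φ)
  -- a functional
  have key : ∃ α : Fin (k + 1) → K, α ≠ 0 ∧ Module.finrank K
      (Submodule.span K ((fun j => ∑ i, α i • l j i) '' (J : Set ℕ))) ≤ q + k := by
    by_contra hcon
    push Not at hcon
    have h1 := hVAN K (PR K N ⧸ Q) (gz Q) ↥(fm K N 1) (th Q) (cd a r) (fin_gz Q) ?_ ?_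
      (fun q s h => cd_succ h) ?_ ?_ k l J (q + k + 1) (fun α hα => hcon α hα) (q + 1) m
      (m + 1) ?_ le_rfl
    · have e : (((q + k + 1 : ℕ) : ℤ) - (k : ℤ) - ((q + 1 : ℕ) : ℤ)) = 0 := by
        push_cast; ring
      rw [e] at h1
      have h2 := io_zero h1 (v := v) (fun i => ?_) (fun j _ => ?_)
      · have h3 : v 0 = 0 := congrFun h2 0
        exact B.ne_zero 0 (Subtype.ext h3)
      · rw [gz_nat]
        exact hV (B i).2
      · have := hl j
        rw [LinearMap.mem_ker, hΦ] at this
        exact this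
    · intro l s z hz
      have := hGZM K N Q 1 (l : PR K N) l.2 s z hz
      rw [Nat.cast_one] at this
      exact this
    · intro l l' z
      rw [th_apply, th_apply, th_apply, th_apply]
      exact mul_left_comm _ _ _
    · intro q s t h hts
      rcases h with h | h
      · exact Or.inl h
      · exact Or.inr (by omega)
    · intro l J c hc q s h
      refine hHVA K N a ha ha0 r Q hQ (fun j => (l j : PR K N)) J (fun j => (l j).2) c ?_ q s h
      refine hc.trans (le_of_eq ?_)
      have e : Submodule.span K ((fun j => (l j : PR K N)) '' (J : Set ℕ)) =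
          (Submodule.span K (l '' (J : Set ℕ))).map (fm K N 1).subtype := by
        rw [Submodule.map_span, ← Set.image_comp]
        rfl
      rw [e]
      exact (Submodule.equivMapOfInjective _ (Submodule.subtype_injective _) _).finrank_eq
    · rcases hq with hq | hq
      · exact Or.inl (by omega)
      · exact Or.inr (by exact_mod_cast hq)
  obtain ⟨α, hα, hαr⟩ := key
  -- the hyperplane
  let φ : V →ₗ[K] K := B.constr K α
  have hφ : ∀ i, φ (B i) = α i := fun i => B.constr_basis K α i
  obtain ⟨i₀, hi₀⟩ := Function.ne_iff.1 hα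
  obtain ⟨w, hφw⟩ : ∃ w : V, φ w = 1 := ⟨(α i₀)⁻¹ • B i₀, by
    rw [map_smul, hφ, smul_eq_mul, inv_mul_cancel₀ hi₀]⟩
  have hφs : Function.Surjective φ := fun c => ⟨c • w, by rw [map_smul, hφw, smul_eq_mul, mul_one]⟩
  refine ⟨(LinearMap.ker φ).map V.subtype, Submodule.map_subtype_le _ _, ?_, (w : PR K N ⧸ Q),
    (Submodule.span K ((fun j => ∑ i, α i • l j i) '' (J : Set ℕ))).map (fm K N 1).subtype,
    w.2, ?_, Submodule.map_subtype_le _ _, ?_, ?_⟩
  · have h1 := LinearMap.finrank_range_add_finrank_ker φ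
    rw [LinearMap.range_eq_top.2 hφs, finrank_top, Module.finrank_self, hVk] at h1
    have h2 := (Submodule.equivMapOfInjective _ (Submodule.subtype_injective V)
      (LinearMap.ker φ)).finrank_eq
    omega
  · rintro ⟨z, hz, hzw⟩
    have hzw' : z = w := Subtype.ext hzw
    have hz' : φ z = 0 := hz
    rw [hzw', hφw] at hz'
    exact one_ne_zero hz'
  · rw [← (Submodule.equivMapOfInjective _ (Submodule.subtype_injective _) _).finrank_eq]
    exact hαr
  · -- products with elements of the hyperplane
    have hprod : ∀ z ∈ gp Q 1 * (LinearMap.ker φ).map V.subtype,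
        ∃ x : Fin (k + 1) → ↥(fm K N 1), Φ x = z ∧ ∑ i, α i • x i = 0 := by
      intro z hz
      induction hz using Submodule.mul_induction_on' with
      | mem_mul_mem y hy z hz =>
        obtain ⟨p, hp, rfl⟩ := mem_gp.1 hy
        obtain ⟨z, hz, rfl⟩ := hz
        refine ⟨fun i => B.repr z i • ⟨p, hp⟩, ?_, ?_⟩
        · rw [hΦ]
          have h1 : (z : PR K N ⧸ Q) = ∑ i, B.repr z i • v i := repr_val B z
          change _ = Ideal.Quotient.mk Q p * (z : PR K N ⧸ Q)
          rw [h1, Finset.mul_sum]
          refine Finset.sum_congr rfl fun i _ => ?_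
          rw [map_smul, LinearMap.smul_apply, th_apply, mul_smul_comm]
        · have h1 : ∑ i, B.repr z i * α i = 0 := by
            have h2 : φ z = 0 := hz
            have h3 := congrArg φ (B.sum_repr z)
            rw [map_sum, h2] at h3
            rw [← h3]
            refine Finset.sum_congr rfl fun i _ => ?_
            rw [map_smul, hφ, smul_eq_mul]
          calc ∑ i, α i • (B.repr z i • (⟨p, hp⟩ : ↥(fm K N 1)))
              = (∑ i, B.repr z i * α i) • (⟨p, hp⟩ : ↥(fm K N 1)) := by
                rw [Finset.sum_smul]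
                refine Finset.sum_congr rfl fun i _ => ?_
                rw [smul_smul, mul_comm]
            _ = 0 := by rw [h1, zero_smul]
      | add y _ z _ hy hz =>
        obtain ⟨x, hx1, hx2⟩ := hy
        obtain ⟨x', hx1', hx2'⟩ := hz
        refine ⟨x + x', by rw [map_add, hx1, hx1'], ?_⟩
        simp only [Pi.add_apply, smul_add, Finset.sum_add_distrib, hx2, hx2', add_zero]
    intro p hp hpw
    obtain ⟨x, hx1, hx2⟩ := hprod _ hpw
    let y : Fin (k + 1) → ↥(fm K N 1) := fun i => B.repr w i • ⟨p, hp⟩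
    have hy1 : Φ y = mu Q p (w : PR K N ⧸ Q) := by
      rw [hΦ]
      have h1 : (w : PR K N ⧸ Q) = ∑ i, B.repr w i • v i := repr_val B w
      change _ = Ideal.Quotient.mk Q p * (w : PR K N ⧸ Q)
      rw [h1, Finset.mul_sum]
      refine Finset.sum_congr rfl fun i _ => ?_
      rw [map_smul, LinearMap.smul_apply, th_apply, mul_smul_comm]
    have hy2 : ∑ i, α i • y i = ⟨p, hp⟩ := by
      have h1 : ∑ i, B.repr w i * α i = 1 := by
        have h3 := congrArg φ (B.sum_repr w)
        rw [map_sum, hφw] at h3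
        rw [← h3]
        refine Finset.sum_congr rfl fun i _ => ?_
        rw [map_smul, hφ, smul_eq_mul]
      calc ∑ i, α i • (B.repr w i • (⟨p, hp⟩ : ↥(fm K N 1)))
          = (∑ i, B.repr w i * α i) • (⟨p, hp⟩ : ↥(fm K N 1)) := by
            rw [Finset.sum_smul]
            refine Finset.sum_congr rfl fun i _ => ?_
            rw [smul_smul, mul_comm]
        _ = _ := by rw [h1, one_smul]
    have hmem : y - x ∈ LinearMap.ker Φ := by
      rw [LinearMap.mem_ker, map_sub, hy1, hx1, sub_self]
    let Ψ : (Fin (k + 1) → ↥(fm K N 1)) →ₗ[K] ↥(fm K N 1) := ∑ i, α i • LinearMap.proj i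
    have hΨ : ∀ x, Ψ x = ∑ i, α i • x i := by
      intro x
      simp [Ψ, LinearMap.sum_apply]
    have h4 : Ψ (y - x) = ⟨p, hp⟩ := by
      rw [map_sub, hΨ, hΨ, hx2, hy2, sub_zero]
    have h5 : Ψ (y - x) ∈ (Submodule.span K (l '' (J : Set ℕ))).map Ψ :=
      Submodule.mem_map_of_mem (hJ hmem)
    rw [h4, Submodule.map_span, ← Set.image_comp] at h5
    have h6 : (Ψ ∘ l) = fun j => ∑ i, α i • l j i := by
      funext j
      exact hΨ (l j)
    rw [h6] at h5
    exact ⟨⟨p, hp⟩, h5, rfl⟩

end Pool.KZ
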